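import Pool.Agent.Helper57.SJ.Stmts2

/-!
# The combination, for all directions (row CMK)
-/

set_option autoImplicit false

namespace Pool.Agent.Helper45.SJ

open MeasureTheory Set Filter Topology
open Pool.Agent.Helper57.QZ (Pr tor circ aa Zy Wy Sy Vy Ky pt lin Good zA Pz)
open Pool.Agent.Helper57.SI (wsup P1 P2 fej fc gc Kk zz ZZ ww D1 D2 tl)
open Pool.Agent.Helper57.SJ

theorem cmk_re (θ : ℝ) (W : ℂ) : |(Complex.exp (-((θ : ℂ) * Complex.I)) * W).re| ≤ ‖W‖ := by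
  refine (Complex.abs_re_le_norm _).trans ?_
  rw [norm_mul, Complex.norm_exp]
  simp

theorem st_CMK (h1 : Pool.Agent.Helper57.SI.ST_MT) (h2 : Pool.Agent.Helper57.SI.ST_DU)
    (h3 : Pool.Agent.Helper57.SI.ST_DL) (h4 : Pool.Agent.Helper57.SI.ST_DW) (h5 : ST_APK)
    (h6 : ST_UPK) (h7 : ST_LOWD) (h9 : ST_TLD) (h10 : ST_ZA)
    (h8 : Pool.Agent.Helper57.QZ.ST_DT1) : ST_CMK := by
  intro δ hδ B hB
  obtain ⟨CU, hU⟩ := h2
  obtain ⟨CL, hCL, hL⟩ := h3
  obtain ⟨CW, hCW, hW⟩ := h4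
  have hδ0 := hδ.1
  have hδ1 := hδ.2
  obtain ⟨η, hδη⟩ : ∃ η : ℝ, δ = 200 * η := ⟨δ / 200, by ring⟩
  have hη0 : 0 < η := by linarith
  have hη1 : η < 1 / 200 := by linarith
  have hηI : η ∈ Ioo (0:ℝ) 1 := ⟨hη0, by linarith⟩
  have hηJ : η ∈ Ioo (0:ℝ) (1 / 2) := ⟨hη0, by linarith⟩
  obtain ⟨A0, hA0, hAP⟩ := h5 η hηJ
  obtain ⟨c1, hc1, Ta, hTa, hTa'⟩ := hAP (B + 1) (by linarith)
  obtain ⟨c2, hc2, Hb, Tb, hHb, hTb, hTb'⟩ := h6 η hηI A0 hA0 (B + 1) (by linarith)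
  obtain ⟨c, hc0, hcc1, hcc2⟩ : ∃ c : ℝ, 0 < c ∧ c ≤ c1 ∧ c ≤ c2 :=
    ⟨min c1 c2, lt_min hc1.1 hc2.1, min_le_left _ _, min_le_right _ _⟩
  have hc1' := hc1.2
  refine ⟨c, ⟨hc0, by linarith⟩, ?_⟩
  obtain ⟨C, hC⟩ : ∃ C : ℝ, C = 1 + |CU| + CW + (CL / η) ^ 2 := ⟨_, rfl⟩
  have hCC : 0 ≤ (CL / η) ^ 2 := sq_nonneg _
  have hCU : CU ≤ |CU| := le_abs_self _
  have hCU0 : 0 ≤ |CU| := abs_nonneg _
  obtain ⟨Ha, hHa⟩ := h1 η hηI C
  obtain ⟨Hc, hHc, hHc'⟩ := h7 η hηI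
  obtain ⟨Hd, Td, hHd, hTd, hTd'⟩ := h10 A0 hA0
  refine ⟨max (max Ha Hb) (max Hc Hd), max Ta (max Tb Td),
    hHb.trans ((le_max_right _ _).trans (le_max_left _ _)), hTa.trans (le_max_left _ _),
    fun T hT H hH hHT => ?_⟩
  have hH1 : Ha ≤ H := ((le_max_left _ _).trans (le_max_left _ _)).trans hH
  have hH2 : Hb ≤ H := ((le_max_right _ _).trans (le_max_left _ _)).trans hH
  have hH3 : Hc ≤ H := ((le_max_left _ _).trans (le_max_right _ _)).trans hH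
  have hH4 : Hd ≤ H := ((le_max_right _ _).trans (le_max_right _ _)).trans hH
  have hT1 : Ta ≤ T := (le_max_left _ _).trans hT
  have hT2 : Tb ≤ T := ((le_max_left _ _).trans (le_max_right _ _)).trans hT
  have hT3 : Td ≤ T := ((le_max_right _ _).trans (le_max_right _ _)).trans hT
  have hTone : 1 ≤ T := by linarith
  have hTpos : 0 < T := by linarith
  have hHT1 : H ≤ T ^ c1 := hHT.trans (Real.rpow_le_rpow_of_exponent_le hTone hcc1)
  have hHT2 : H ≤ T ^ c2 := hHT.trans (Real.rpow_le_rpow_of_exponent_le hTone hcc2)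
  have hHT3 : H ≤ T := by
    have := hHT.trans (Real.rpow_le_rpow_of_exponent_le hTone (show c ≤ 1 by linarith))
    rwa [Real.rpow_one] at this
  obtain ⟨m1, m2, m3, m4, m5, m6, m7, m8, m9⟩ := hHa H hH1
  obtain ⟨L, hLdef⟩ : ∃ L : ℝ, Real.log (Real.log H) = L := ⟨_, rfl⟩
  rw [hLdef] at m2 m6 m7 m8
  rw [hLdef]
  have hLpos : 1 ≤ L := by linarith
  have hz1 : 1 ≤ zz H := by
    have : (1:ℝ) ≤ (zz H : ℝ) := by linarith
    exact_mod_cast this
  refine ⟨hLpos, ?_⟩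
  have hy2 := hTd' T hT3 H hH4 hHT3
  obtain ⟨y, hydef⟩ : ∃ y : ℕ, zA A0 T = y := ⟨_, rfl⟩
  rw [hydef] at hy2
  obtain ⟨E1, e1, e1', e1''⟩ := hTa' T hT1 H m1 hHT1
  obtain ⟨E2, e2, e2', e2''⟩ := hTb' T hT2 H hH2 hHT2
  rw [hydef] at e1'' e2''
  refine ⟨Real.exp (P1 (zz H) + Ky y 1), Real.exp_pos _, E1 ∪ E2, union_subset e1 e2, ?_,
    fun u hu huE => ?_⟩
  · have a2 := measureReal_union_le (μ := (volume : Measure ℝ)) E1 E2
    have hHpos : 0 < H := by linarith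
    have a3 : H ^ (-(B + 1)) ≤ H ^ (-B) / 2 := by
      rw [show -(B + 1) = -B - 1 by ring, Real.rpow_sub_one hHpos.ne']
      exact div_le_div_of_nonneg_left (Real.rpow_nonneg hHpos.le _) (by norm_num) (by linarith)
    have a4 : T * H ^ (-(B + 1)) ≤ T * (H ^ (-B) / 2) := mul_le_mul_of_nonneg_left a3 hTpos.le
    have a5 : T * (H ^ (-B) / 2) + T * (H ^ (-B) / 2) = T * H ^ (-B) := by ring
    linarith only [a2, a4, a5, e1', e2']
  obtain ⟨A, hA⟩ : ∃ A : ℝ, Real.exp (P1 (zz H) + Ky y 1) = A := ⟨_, rfl⟩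
  have hApos : 0 < A := by rw [← hA]; exact Real.exp_pos _
  rw [hA]
  simp only [mem_union, not_or] at huE
  obtain ⟨n1, n2⟩ := huE
  obtain ⟨q0, q1⟩ := e1'' u hu n1
  have q2 := e2'' u hu n2
  have bexp : Real.exp η ≤ 1 + 2 * η := by
    have b3 := Real.abs_exp_sub_one_sub_id_le (x := η)
      (by rw [abs_of_nonneg hη0.le]; linarith)
    have b4 := (abs_le.1 b3).2
    have b5 : η ^ 2 ≤ η := by nlinarith only [hη0, hη1]
    linarith only [b4, b5]
  have bexp' : 1 - η ≤ Real.exp (-η) := by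
    have := Real.add_one_le_exp (-η)
    linarith
  have key : ∀ t ∈ Icc u (u + H), riemannZeta (pt 1 t) ≠ 0 ∧
      (1 - η) * ‖Zy y 1 (lin y t)‖ ≤ ‖riemannZeta (pt 1 t)‖ ∧
      ‖riemannZeta (pt 1 t)‖ ≤ (1 + 2 * η) * ‖Zy y 1 (lin y t)‖ ∧
      ‖deriv riemannZeta (pt 1 t) / riemannZeta (pt 1 t) - Wy y 1 (lin y t)‖ ≤ η := by
    intro t ht
    obtain ⟨k1, k2, k3⟩ := q1 t ht
    obtain ⟨z1, -⟩ := h8 y 1 (lin y t) (by norm_num)
    have zp : 0 < ‖Zy y 1 (lin y t)‖ := norm_pos_iff.2 z1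
    have rp : 0 < ‖riemannZeta (pt 1 t)‖ := norm_pos_iff.2 k1
    obtain ⟨j1, j2⟩ := abs_le.1 k2
    refine ⟨k1, ?_, ?_, k3⟩
    · have s1 : Real.exp (-η) * ‖Zy y 1 (lin y t)‖ ≤ ‖riemannZeta (pt 1 t)‖ := by
        have s2 : -η + Real.log ‖Zy y 1 (lin y t)‖ ≤ Real.log ‖riemannZeta (pt 1 t)‖ := by
          linarith
        have s3 := Real.exp_le_exp.2 s2
        rwa [Real.exp_add, Real.exp_log zp, Real.exp_log rp] at s3
      exact (mul_le_mul_of_nonneg_right bexp' zp.le).trans s1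
    · have s1 : ‖riemannZeta (pt 1 t)‖ ≤ Real.exp η * ‖Zy y 1 (lin y t)‖ := by
        have s2 : Real.log ‖riemannZeta (pt 1 t)‖ ≤ η + Real.log ‖Zy y 1 (lin y t)‖ := by
          linarith
        have s3 := Real.exp_le_exp.2 s2
        rwa [Real.exp_add, Real.exp_log zp, Real.exp_log rp] at s3
      exact s1.trans (mul_le_mul_of_nonneg_right bexp zp.le)
  -- the tails from `zz H` on
  have tail : ∀ t ∈ Icc u (u + H), ‖tl 0 y (zz H) (lin y t)‖ ≤ 3 * η ∧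
      ‖tl 1 y (zz H) (lin y t)‖ ≤ 3 * η * L := by
    intro t ht
    obtain ⟨d1, d2⟩ := h9 y (zz H) (ZZ η H) (lin y t) m4
    obtain ⟨d3, d4⟩ := q2 t ht
    refine ⟨by linarith only [d1, d3, m9], ?_⟩
    have : 1 ≤ C := by linarith only [hC, hCC, hCU0, hCW]
    linarith only [d2, d4, m7, m8, this, hη1]
  -- the lower bound for the logarithmic derivative in a direction
  have low : ∀ (t ϑ α : ℝ), α = ϑ + Real.pi → t ∈ Icc u (u + H) →
      D2 (zz H) α t ≤ η * Real.log (zz H) →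
      (1 - δ) * L ≤ (Complex.exp (-((ϑ : ℂ) * Complex.I)) *
        (deriv riemannZeta (pt 1 t) / riemannZeta (pt 1 t))).re := by
    intro t ϑ α hα ht hd
    rw [hα] at hd
    have w1 := hW y (zz H) t ϑ (3 * η * L) (η * Real.log (zz H)) hy2 hd (tail t ht).2
    obtain ⟨-, -, -, w2⟩ := key t ht
    have w3 := cmk_re ϑ (deriv riemannZeta (pt 1 t) / riemannZeta (pt 1 t) - Wy y 1 (lin y t))
    have w4 := (abs_le.1 (w3.trans w2)).1
    rw [mul_sub, Complex.sub_re] at w4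
    have w5 : η * Real.log (zz H) ≤ η * L := mul_le_mul_of_nonneg_left m6 hη0.le
    have w6 : δ * L = 200 * (η * L) := by rw [hδη]; ring
    have w7 : 0 ≤ η * L := by positivity
    linarith only [w1, w4, w5, w6, w7, m8, hη0, hη1, hLpos, hC, hCC, hCU, hCU0, hCW]
  refine ⟨q0, fun t ht => ?_, ?_, fun θ => ?_⟩
  · obtain ⟨k1, k2, k3, k4⟩ := key t ht
    obtain ⟨u1, u2⟩ := hU y (ZZ η H) (lin y t) η (q2 t ht).1 (q2 t ht).2
    refine ⟨k1, ?_, ?_⟩
    · have b1 : Real.exp (P1 (ZZ η H) + Ky y 1 + η) ≤ A * Real.exp (3 * η) := by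
        rw [← hA, ← Real.exp_add]
        exact Real.exp_le_exp.2 (by linarith)
      have b2 : Real.exp (3 * η) ≤ 1 + 4 * η := by
        have b3 := Real.abs_exp_sub_one_sub_id_le (x := 3 * η)
          (by rw [abs_of_nonneg (by positivity)]; linarith)
        have b4 := (abs_le.1 b3).2
        nlinarith only [b4, hη0, hη1]
      have b5 : (1 + 2 * η) * ‖Zy y 1 (lin y t)‖ ≤ (1 + 2 * η) * (A * (1 + 4 * η)) :=
        mul_le_mul_of_nonneg_left
          ((u1.trans b1).trans (mul_le_mul_of_nonneg_left b2 hApos.le)) (by linarith)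
      have b6 : (1 + 2 * η) * (A * (1 + 4 * η)) ≤ (1 + δ) * A := by
        have : (1 + 2 * η) * (1 + 4 * η) ≤ 1 + δ := by rw [hδη]; nlinarith only [hη0, hη1]
        calc (1 + 2 * η) * (A * (1 + 4 * η)) = ((1 + 2 * η) * (1 + 4 * η)) * A := by ring
          _ ≤ (1 + δ) * A := mul_le_mul_of_nonneg_right this hApos.le
      exact k3.trans (b5.trans b6)
    · have c1 : ‖deriv riemannZeta (pt 1 t) / riemannZeta (pt 1 t)‖ ≤
          ‖deriv riemannZeta (pt 1 t) / riemannZeta (pt 1 t) - Wy y 1 (lin y t)‖ +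
            ‖Wy y 1 (lin y t)‖ := by
        have := norm_add_le (deriv riemannZeta (pt 1 t) / riemannZeta (pt 1 t) -
          Wy y 1 (lin y t)) (Wy y 1 (lin y t))
        rwa [sub_add_cancel] at this
      have c2 : 0 ≤ η * L := by positivity
      have c3 : δ * L = 200 * (η * L) := by rw [hδη]; ring
      linarith only [c1, c2, c3, k4, u2, m7, hη0, hη1, hLpos, hC, hCC, hCU, hCU0, hCW]
  · obtain ⟨t3, ht3, f1, f2⟩ := hHc' H hH3 u 0
    refine ⟨t3, ht3, ?_, ?_⟩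
    · obtain ⟨k1, k2, k3, k4⟩ := key t3 ht3
      have l1 := hL y (zz H) t3 (3 * η) hz1 hy2 (by linarith only [f1, hη0]) (tail t3 ht3).1
      have hzpos : (0:ℝ) < (zz H : ℝ) := by exact_mod_cast hz1
      have l2 : CL / Real.sqrt (zz H) ≤ η := by
        have s1 : CL / η ≤ Real.sqrt (zz H) := by
          apply Real.le_sqrt_of_sq_le
          linarith only [m3, hC, hCC, hCU0, hCW]
        have s2 : 0 < Real.sqrt (zz H : ℝ) := Real.sqrt_pos.2 hzpos
        rw [div_le_iff₀ s2]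
        rw [div_le_iff₀ hη0] at s1
        linarith only [s1]
      have l3 : A * Real.exp (-(55 * η)) ≤ ‖Zy y 1 (lin y t3)‖ := by
        refine le_trans ?_ l1
        rw [← hA, ← Real.exp_add]
        exact Real.exp_le_exp.2 (by linarith only [l2])
      have l4 : 1 - 55 * η ≤ Real.exp (-(55 * η)) := by
        have := Real.add_one_le_exp (-(55 * η))
        linarith only [this]
      have l5 : A * (1 - 55 * η) ≤ ‖Zy y 1 (lin y t3)‖ :=
        (mul_le_mul_of_nonneg_left l4 hApos.le).trans l3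
      have l6 : (1 - η) * (A * (1 - 55 * η)) ≤ (1 - η) * ‖Zy y 1 (lin y t3)‖ :=
        mul_le_mul_of_nonneg_left l5 (by linarith only [hη1])
      have l7 : (1 - δ) * A ≤ (1 - η) * (A * (1 - 55 * η)) := by
        have : 1 - δ ≤ (1 - η) * (1 - 55 * η) := by rw [hδη]; nlinarith only [hη0, hη1]
        calc (1 - δ) * A ≤ ((1 - η) * (1 - 55 * η)) * A :=
              mul_le_mul_of_nonneg_right this hApos.le
          _ = (1 - η) * (A * (1 - 55 * η)) := by ring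
      exact l7.trans (l6.trans k2)
    · have r1 := low t3 (-Real.pi) 0 (by ring) ht3 f2
      exact r1.trans ((le_abs_self _).trans (cmk_re _ _))
  · obtain ⟨t4, ht4, g1, g2⟩ := hHc' H hH3 u (θ + Real.pi)
    exact ⟨t4, ht4, low t4 θ (θ + Real.pi) rfl ht4 g2⟩

end Pool.Agent.Helper45.SJ
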